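import Pool.Agent.W901.FC.DefsH
import Pool.Agent.W901.NU.ClsDefs

/-!
# Predictions with a constant number of help bits, computable in a class
-/

set_option autoImplicit false

namespace Pool.Agent.W901.HP

open Pool.Agent.NPC Pool.Agent.W901.FH Pool.Agent.W901.NU

/-- `A` is predictable in the class `C` with `k` help bits and advantage `t` on the lists which
satisfy `Q`: there is a function `g` computable in `C` (values of polynomial length, graph in `C`)
such that for all lists with at least `m₀` entries which satisfy `Q` there are `k` bits `u`,
depending on the list in any way, for which `g` computes from the coded list and `u` predictions with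
advantage `t`. -/
def HelpIn (C : Set (List Bool) → Prop) (Q : List (List Bool) → Prop) (k t : ℕ)
    (A : Set (List Bool)) : Prop :=
  ∃ (g : List Bool → List (Option Bool)) (m₀ : ℕ), FnIn C g ∧
    ∀ qs : List (List Bool), m₀ ≤ qs.length → Q qs → ∃ u : List Bool, u.length = k ∧
      Adv t A qs (g (pairBits (bits qs) u))

end Pool.Agent.W901.HP
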