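import Pool.Agent.W901.HP.Defs
import Pool.Agent.W901.PX.LvC
import Pool.Agent.W901.FC.LawC

/-!
# Help bits and the levels of the polynomial hierarchy: candidate lists with tables of values
-/

set_option autoImplicit false

namespace Pool.Agent.W901.HP

open Pool.Agent.NPC Pool.Agent.H579R2.Spt Pool.Agent.H251R5.PQ Pool.Agent.W901.AT
open Pool.Agent.W903.GP (Sp)
open Pool.Agent.W920.LN (Outputs Tb go go_poly valid lk lk_map ET)
open Pool.Agent.W920.LS (Hard Ln code code_sp hard_of_ps)
open Pool.Agent.W21.FH (allU allU_length mem_allU)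
open Pool.Agent.W901.FH

/-- decoding of the value -/
def dv (y : List Bool) : Option (List (Option Bool)) :=
  unbits (List (Option Bool)) (unpair y).2

theorem dv_poly : Poly dv := poly_unbits.comp (NPC.Poly.snd poly_unpair)

/-- the table has the right value -/
def rt (g : List Bool → List (Option Bool)) (tb : Tb) (z : List Bool) : Bool :=
  decide (lk tb z = bits (g z))

/-- the table has a value -/
def hs (tb : Tb) (z : List Bool) : Bool := tb.any fun e => decide (e.1 = z)

/-- the values of the table are right -/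
def Rts (g : List Bool → List (Option Bool)) (tb : Tb) : Prop :=
  ∀ e ∈ tb, e.2 = bits (g e.1)

theorem hs_poly : Poly (fun q : Tb × List Bool => hs q.1 q.2) := by
  unfold hs
  exact NPC.Poly.any (p := fun (q : Tb × List Bool) (e : List Bool × List Bool) =>
    decide (e.1 = q.2)) (NPC.Poly.fst NPC.Poly.id) (NPC.Poly.decide_eq
      (NPC.Poly.fst (NPC.Poly.snd NPC.Poly.id)) (NPC.Poly.snd (NPC.Poly.fst NPC.Poly.id)))

theorem bits_ne_nil {α : Type} [TEnc α] (a : α) : bits a ≠ [] := by
  intro h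
  have h1 := congrArg List.length h
  rw [bits_length] at h1
  have h2 := sz_pos a
  simp at h1
  omega

theorem hs_eq_rt {g : List Bool → List (Option Bool)} {tb : Tb} (h : Rts g tb) (z : List Bool) :
    hs tb z = rt g tb z := by
  unfold hs rt lk
  cases h2 : tb.filter fun e => decide (e.1 = z) with
  | nil =>
    have h3 : tb.any (fun e => decide (e.1 = z)) = false := by
      rw [Bool.eq_false_iff]
      intro h4
      rw [List.any_eq_true] at h4
      obtain ⟨e, he, he2⟩ := h4
      have h5 : e ∈ tb.filter fun e => decide (e.1 = z) := List.mem_filter.2 ⟨he, he2⟩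
      rw [h2] at h5
      exact absurd h5 List.not_mem_nil
    rw [h3]
    symm
    rw [decide_eq_false_iff_not]
    exact fun h4 => bits_ne_nil _ h4.symm
  | cons e t =>
    have h3 : e ∈ tb.filter fun e => decide (e.1 = z) := by
      rw [h2]; exact List.mem_cons_self
    obtain ⟨h4, h5⟩ := List.mem_filter.1 h3
    have h6 : tb.any (fun e => decide (e.1 = z)) = true := List.any_eq_true.2 ⟨e, h4, h5⟩
    rw [h6]
    symm
    rw [decide_eq_true_eq]
    rw [decide_eq_true_eq] at h5
    simp only [List.head?_cons, Option.getD_some]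
    rw [← h5]
    exact h e h4

theorem go_of_rt {g : List Bool → List (Option Bool)} {p0 : Polynomial ℕ}
    (hp0 : ∀ z, (bits (g z)).length ≤ p0.eval z.length) {tb : Tb} {z : List Bool}
    (h : rt g tb z = true) : go dv p0 tb z = some (g z) := by
  unfold rt at h
  rw [decide_eq_true_eq] at h
  unfold go dv
  rw [h, decide_eq_true (hp0 z), cond_true, unpair_pairBits, unbits_bits]

/-- What the search needs. -/
def CHC (A : Set (List Bool)) (t c m₀ k : ℕ) (g : List Bool → List (Option Bool)) : Prop :=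
  ∀ qs : List (List Bool), m₀ ≤ qs.length → (∀ q ∈ qs, q.length ^ c ≤ qs.length) →
    ∃ u ∈ allU k, (g (pairBits (bits qs) u)).length = qs.length ∧
      (t : ℤ) ≤ |cor (g (pairBits (bits qs) u)) (answers A qs)|

/-- **Candidate lists, with tables.** -/
theorem p_approxH (hHR : P_HR) (hSJ : P_SURJ) (hLB : P_LBP) {A : Set (List Bool)} (hA : Hard A)
    {k t c m₀ : ℕ} (hLD : LinDisc ((2 ^ k : ℕ)) t) {g : List Bool → List (Option Bool)}
    {p0 : Polynomial ℕ} (hp0 : ∀ z, (bits (g z)).length ≤ p0.eval z.length)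
    (hN : CHC A t c m₀ k g)
    {f0 : List Bool → List Bool} (hf0 : Sp f0) (pp : Polynomial ℕ)
    (hlen : ∀ x, (f0 x).length ≤ pp.eval x.length) :
    ∃ (G : Tb × List Bool → List (List Bool)) (Ks : List Bool → List (List Bool))
      (r : Polynomial ℕ), NPC.Poly G ∧ NPC.Poly Ks ∧
      (∀ q, (G q).length ≤ r.eval q.2.length) ∧
      ∀ tb x, (∀ z ∈ Ks x, rt g tb z = true) → f0 x ∈ G (tb, x) := by
  obtain ⟨f, hf, hfA⟩ := hA (lang (LabF f0 (2 ^ k))) (labF_sp hLB hf0 (2 ^ k))
  have hqfp : Poly (fun q : List Bool × (ℕ × (ℕ × (ℕ × (ℕ × ℕ)))) => f (bits q)) :=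
    (PIso.poly_iff.2 hf).comp bits_poly
  have hE : Poly (fun z : Tb × List (List Bool) => ET dv p0 (fun _ => allU k) z.1 z.2) :=
    Pool.Agent.W920.LN.eT_poly dv_poly p0 (NPC.Poly.const _) (NPC.Poly.fst NPC.Poly.id)
      (NPC.Poly.snd NPC.Poly.id)
  obtain ⟨G, S, r, hG, hS, hr, hS2, hG2⟩ := engineC (A := A) (c := c) (m₀ := m₀) hHR hSJ hLD
    hE (fun tb qs => by
      unfold ET
      rw [List.length_map, allU_length]) hqfp pp
  refine ⟨fun q => G q.1 q.2, fun x => (S x).flatMap (Pool.Agent.W920.NL.kys fun _ => allU k), r,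
    hG, ?_, fun q => hr q.1 q.2, fun tb x hval => ?_⟩
  · exact NPC.Poly.flatMap (l := S)
      (F := fun _ qs => Pool.Agent.W920.NL.kys (fun _ => allU k) qs) hS
      ((Pool.Agent.W920.NL.kys_poly (NPC.Poly.const _)).comp (NPC.Poly.snd NPC.Poly.id))
  · refine hG2 tb x (f0 x) (fun qs hqs => ?_) (hlen x) ?_
    · obtain ⟨u, hu, hgu⟩ := hN qs (hS2 x qs hqs).1 (hS2 x qs hqs).2
      have hin : pairBits (bits qs) u ∈
          (S x).flatMap (Pool.Agent.W920.NL.kys fun _ => allU k) :=
        List.mem_flatMap.2 ⟨qs, hqs, List.mem_map.2 ⟨u, hu, rfl⟩⟩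
      have hh := go_of_rt hp0 (hval _ hin)
      refine ⟨_, List.mem_map.2 ⟨u, hu, ?_⟩, hgu⟩
      simp only [hh, Option.getD_some]
    · intro m P j s i
      rw [← hfA, bits_mem_lang]
      exact Iff.rfl

/-- **Candidate lists for functions on data, with tables.** -/
theorem p_candsH (hHR : P_HR) (hSJ : P_SURJ) (hLB : P_LBP) {A : Set (List Bool)} (hA : Hard A)
    {k t c m₀ : ℕ} (hLD : LinDisc ((2 ^ k : ℕ)) t) {g : List Bool → List (Option Bool)}
    {p0 : Polynomial ℕ} (hp0 : ∀ z, (bits (g z)).length ≤ p0.eval z.length)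
    (hN : CHC A t c m₀ k g)
    {α β : Type} [TEnc α] [TDec α] [TEnc β] [TDec β] (a0 : α) (b0 : β) {F : α → β} (hF : Sp F) :
    ∃ (G : Tb × α → List β) (Ks : α → List (List Bool)) (r : Polynomial ℕ), NPC.Poly G ∧
      NPC.Poly Ks ∧ (∀ q, (G q).length ≤ r.eval (sz q.2)) ∧
      ∀ tb a, (∀ z ∈ Ks a, rt g tb z = true) → F a ∈ G (tb, a) := by
  have h1 : NPC.Poly (fun z : List Bool => (unbits α z).getD a0) :=
    NPC.Poly.optGetD poly_unbits (NPC.Poly.const a0)
  have h2 : Sp (fun z : List Bool => bits (F ((unbits α z).getD a0))) :=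
    (hF.comp (Sp.of_poly h1)).post bits_poly
  obtain ⟨p, hp⟩ := h2.sz_le
  obtain ⟨G, Ks, r, hG, hKs, hr, hG2⟩ := p_approxH hHR hSJ hLB hA hLD hp0 hN h2
    (p.comp (Polynomial.C 4 * Polynomial.X + 1)) (fun x => by
      have e1 := hp x
      have e2 := sz_listBool_ge (bits (F ((unbits α x).getD a0)))
      have e3 := eval_mono p (sz_listBool_le x)
      rw [Polynomial.eval_comp]
      simp only [Polynomial.eval_add, Polynomial.eval_mul, Polynomial.eval_C, Polynomial.eval_X,
        Polynomial.eval_one]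
      omega)
  refine ⟨fun q => (G (q.1, bits q.2)).map fun y => (unbits β y).getD b0,
    fun a => Ks (bits a), r, ?_, hKs.comp bits_poly, ?_, fun tb a h => ?_⟩
  · refine NPC.Poly.map (l := fun q : Tb × α => G (q.1, bits q.2))
      (F := fun _ y => (unbits β y).getD b0) ?_ ?_
    · have h3 : NPC.Poly (fun q : Tb × α => ((q.1, bits q.2) : Tb × List Bool)) :=
        NPC.Poly.pair (NPC.Poly.fst NPC.Poly.id) (bits_poly.comp (NPC.Poly.snd NPC.Poly.id))
      have h4 := hG.comp h3
      exact h4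
    · exact NPC.Poly.optGetD (poly_unbits.comp (NPC.Poly.snd NPC.Poly.id)) (NPC.Poly.const b0)
  · intro q
    rw [List.length_map]
    exact hr (q.1, bits q.2)
  · refine List.mem_map.2 ⟨_, hG2 tb (bits a) h, ?_⟩
    simp only [unbits_bits, Option.getD_some]

end Pool.Agent.W901.HP
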