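import Pool.Agent.W901.HP.HpA
import Pool.Agent.W920.LN.Main

/-!
# Help bits and the levels of the polynomial hierarchy: the evaluation of formulas
-/

set_option autoImplicit false

namespace Pool.Agent.W901.HP

open Pool.Agent.NPC Pool.Agent.H656R2.AK Pool.Agent.H623R2.PS Pool.Agent.W920.LS
open Pool.Agent.H579R2.Spt (prm prm_spec prm_poly exists_pow_bound)
open Pool.Agent.W901.AT (gen gen_lt gen_cast dig dig_mod gen_upoly)
open Pool.Agent.W920.LN Pool.Agent.W901.NU Pool.Agent.W901.PX
open Pool.Agent.W903.GP (SigmaP)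

section

variable {G : Tb × Ln → List ℕ} {Ks : Ln → List (List Bool)} {vd : Tb → List Bool → Bool}

/-- **Completeness**, with a property of the tables. -/
theorem run_completeP (Q : Tb → Prop) {p : ℕ} (hp : p.Prime) (C : List (List (Bool × ℕ)))
    (ks : List Unit) (n : ℕ) (ops0 : List Op)
    (hcard : ∀ (tb : Tb) (ops : List Op) (a : List ℕ) (j : ℕ), ops <:+ ops0 → a.length = n →
      (∀ x ∈ a, x < p) → j < n → (G (tb, ((p, C, ops, a), (j, ks)))).length ^ 2 * ks.length < p)
    (R : ℕ) (hR : ∀ (ops : List Op) (a : List ℕ) (j : ℕ), ops <:+ ops0 → a.length = n →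
      (∀ x ∈ a, x < p) → j < n → ∃ tb : Tb, sz tb ≤ R ∧ Q tb ∧
        ∀ y ∈ Ks ((p, C, ops, a), (j, ks)), vd tb y = true) :
    ∀ (ops : List Op) (a : List ℕ) (stk : List Rec) (fl : Bool),
      ops <:+ ops0 → Sm (nlit C) n ops → a.length = n → (∀ x ∈ a, x < p) →
      ∃ tbs : List Tb, tbs.length = ops.length ∧ (∀ tb ∈ tbs, sz tb ≤ R ∧ Q tb) ∧
        ((gstep G Ks vd p C ks)^[ops.length] (ops, (a, (stk, (tbs, fl))))).2.2.2.2 = fl := by
  intro ops
  induction ops with
  | nil => intro a stk fl _ _ _ _; exact ⟨[], rfl, fun tb h => absurd h List.not_mem_nil, rfl⟩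
  | cons o ops ih =>
    intro a stk fl hs hsm han ha
    have hs' : ops <:+ ops0 := (List.suffix_cons o ops).trans hs
    obtain ⟨tb, htb1, htbQ, htb2⟩ := hR ops a o.2 hs' han ha hsm.1
    set z : Ln := ((p, C, ops, a), (o.2, ks)) with hz
    have hc := hcard tb ops a o.2 hs' han ha hsm.1
    rw [← hz] at hc
    have ht := (pick_spec hp ks.length (G (tb, z)) hc).1
    obtain ⟨tbs, h1, h2, h3⟩ := ih (stN a o.2 (pick p ks.length (G (tb, z))))
      (((o.1, a.getD o.2 0), (G (tb, z), pick p ks.length (G (tb, z)))) :: stk) fl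
      hs' hsm.2.2 (by rw [stN_length, han]) (stN_mem_lt ha o.2 ht)
    refine ⟨tb :: tbs, by rw [List.length_cons, h1, List.length_cons], ?_, ?_⟩
    · intro tb' h
      rcases List.mem_cons.1 h with rfl | h
      · exact ⟨htb1, htbQ⟩
      · exact h2 tb' h
    · rw [List.length_cons, Function.iterate_succ_apply, gstep_cons]
      rw [← hz, List.all_eq_true.2 htb2, Bool.and_true]
      exact h3

end

/-- with right tables the test for the presence of the values suffices -/
theorem gstep_hs {G : Tb × Ln → List ℕ} {Ks : Ln → List (List Bool)}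
    {g : List Bool → List (Option Bool)} (p : ℕ) (C : List (List (Bool × ℕ))) (ks : List Unit)
    (n : ℕ) : ∀ s : Sg, (∀ tb ∈ s.2.2.2.1, Rts g tb) →
      (gstep G Ks hs p C ks)^[n] s = (gstep G Ks (rt g) p C ks)^[n] s := by
  induction n with
  | zero => exact fun s _ => rfl
  | succ n ih =>
    intro s hs1
    have hg : Rts g (gtb s) := by
      unfold gtb
      cases h : s.2.2.2.1 with
      | nil => exact fun e he => absurd he List.not_mem_nil
      | cons tb tbs =>
        simp only [List.head?_cons, Option.getD_some]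
        exact hs1 tb (by rw [h]; exact List.mem_cons_self)
    have h1 : gstep G Ks hs p C ks s = gstep G Ks (rt g) p C ks s := by
      unfold Pool.Agent.W920.LN.gstep
      have h2 : hs (gtb s) = rt g (gtb s) := funext fun z => hs_eq_rt hg z
      rw [h2]
    rw [Function.iterate_succ_apply, Function.iterate_succ_apply, h1]
    exact ih _ fun tb htb => hs1 tb (List.mem_of_mem_tail htb)

theorem exists_tableP {g : List Bool → List (Option Bool)} {p0 : Polynomial ℕ}
    (hp0 : ∀ z, (bits (g z)).length ≤ p0.eval z.length) {Ks : Ln → List (List Bool)}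
    {pK : Polynomial ℕ} (hpK : ∀ z, sz (Ks z) ≤ pK.eval (sz z)) (z : Ln) {Z : ℕ} (hz : sz z ≤ Z) :
    ∃ tb : Tb, sz tb ≤ (RT pK p0).eval Z ∧ Rts g tb ∧ ∀ y ∈ Ks z, rt g tb y = true := by
  refine ⟨(Ks z).map fun y => (y, bits (g y)), ?_, ?_, fun y hy => ?_⟩
  · have e1 := (hpK z).trans (eval_mono pK hz)
    have e2 := length_lt_sz (Ks z)
    refine (sz_le_length_mul _ (pK.eval Z + 4 * p0.eval (pK.eval Z) + 2) ?_).trans ?_
    · intro e he
      obtain ⟨y, hy, rfl⟩ := List.mem_map.1 he
      have e3 := sz_le_of_mem hy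
      have e4 := sz_listBool_ge y
      have e5 := sz_listBool_le (bits (g y))
      have e6 := (hp0 y).trans (eval_mono p0 (show y.length ≤ pK.eval Z by omega))
      rw [sz_pair]
      omega
    · rw [List.length_map, RT_eval]
      have e3 : (Ks z).length * (pK.eval Z + 4 * p0.eval (pK.eval Z) + 2 + 1) ≤
          pK.eval Z * (pK.eval Z + 4 * p0.eval (pK.eval Z) + 3) :=
        Nat.mul_le_mul (by omega) (by omega)
      omega
  · intro e he
    obtain ⟨y, _, rfl⟩ := List.mem_map.1 he
    rfl
  · unfold rt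
    rw [lk_map (fun y => bits (g y)) (Ks z) hy, decide_eq_true_eq]

/-- the test of the tables is in the level -/
theorem rts_level {l : ℕ} {g : List Bool → List (Option Bool)} (hg : CFn (SigmaP (l + 1)) g) :
    CPr (SigmaP (l + 1)) (fun q : List Bool × List Tb => ∀ tb ∈ q.2, Rts g tb) := by
  have h1 := sPart hg.2 (f := fun e : List Bool × List Bool =>
    (unbits (List (Option Bool)) e.2).map (fun v => (e.1, v)))
    (NPC.Poly.optMap (o := fun e : List Bool × List Bool => unbits (List (Option Bool)) e.2)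
      (f := fun (e : List Bool × List Bool) v => (e.1, v))
      (poly_unbits.comp (NPC.Poly.snd NPC.Poly.id))
      (NPC.Poly.pair (NPC.Poly.fst (NPC.Poly.fst NPC.Poly.id)) (NPC.Poly.snd NPC.Poly.id)))
  have h2 : CPr (SigmaP (l + 1)) (fun e : List Bool × List Bool => e.2 = bits (g e.1)) := by
    refine h1.congr fun e => ?_
    constructor
    · rintro ⟨q, hq, hgq⟩
      obtain ⟨v, hv, rfl⟩ := Option.map_eq_some_iff.1 hq
      simp only at hgq
      rw [hgq, bits_of_unbits hv]
    · intro he
      refine ⟨(e.1, g e.1), ?_, rfl⟩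
      rw [he, unbits_bits, Option.map_some]
  have h3 : CPr (SigmaP (l + 1)) (fun q : (List Bool × List Tb) × Tb =>
      ∀ e ∈ q.2, e.2 = bits (g e.1)) :=
    sAllMem (l := fun q : (List Bool × List Tb) × Tb => q.2)
      (P := fun q : ((List Bool × List Tb) × Tb) × (List Bool × List Bool) =>
        q.2.2 = bits (g q.2.1)) (NPC.Poly.snd NPC.Poly.id)
      (sComp (P := fun e : List Bool × List Bool => e.2 = bits (g e.1)) h2
        (NPC.Poly.snd NPC.Poly.id))
  exact sAllMem (l := fun q : List Bool × List Tb => q.2)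
    (P := fun q : (List Bool × List Tb) × Tb => ∀ e ∈ q.2, e.2 = bits (g e.1))
    (NPC.Poly.snd NPC.Poly.id) h3

/-- **Candidate lists with tables of values from a level give `PSPACE` in the level.** -/
theorem sigma_of_cands {l : ℕ} {g : List Bool → List (Option Bool)}
    (hg : CFn (SigmaP (l + 1)) g) {p0 : Polynomial ℕ}
    (hp0 : ∀ z, (bits (g z)).length ≤ p0.eval z.length)
    {G : Tb × Ln → List ℕ} {Ks : Ln → List (List Bool)} {r0 : Polynomial ℕ} (hG : NPC.Poly G)
    (hKs : NPC.Poly Ks) (hr0 : ∀ q, (G q).length ≤ r0.eval (sz q.2))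
    (hG2 : ∀ tb a, (∀ z ∈ Ks a, rt g tb z = true) → code a ∈ G (tb, a))
    {L : Set (List Bool)} (hL : Pool.Agent.H623R2.PS.InPSPACE L) : SigmaP (l + 1) L := by
  obtain ⟨pK, hpK⟩ := hKs.sz_le
  obtain ⟨f, hf, -, hf'⟩ := qbf_hard hL
  have hw : NPC.Poly (fun x => wr (f x)) := wr_poly.comp hf
  obtain ⟨pw, hpw⟩ := hw.sz_le
  set r : Polynomial ℕ := pw.comp (Polynomial.C 4 * Polynomial.X + 1) with hr
  have hrx : ∀ x : List Bool, sz (wr (f x)) ≤ r.eval x.length := by
    intro x
    refine (hpw x).trans ?_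
    rw [hr, Polynomial.eval_comp]
    refine eval_mono pw ?_
    simpa using sz_listBool_le x
  set p3 : Polynomial ℕ := Polynomial.C 100 * Polynomial.X ^ 3 + 100 with hp3
  obtain ⟨e1, he1⟩ := exists_pow_bound ((r0.comp p3) ^ 2 * Polynomial.X)
  set gg : ℕ := e1 + 1 with hgg
  set b : List Bool → ℕ := fun x => r.eval x.length + (gg + 3) with hb
  have hbU : UPoly b := ((UPoly.length NPC.Poly.id).eval r).add (UPoly.const (gg + 3))
  have hpowU : ∀ {u : List Bool → ℕ}, UPoly u → ∀ m : ℕ, UPoly (fun x => (u x) ^ m) := by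
    intro u hu m
    induction m with
    | zero => simpa using UPoly.const 1
    | succ m ih => simpa only [pow_succ] using ih.mul hu
  have hpU : UPoly (fun x => prm ((b x) ^ gg)) := prm_poly (hpowU hbU gg)
  have hb0 : ∀ x, (b x) ^ gg ≠ 0 := fun x => by
    have h2 : 0 < b x := by simp only [hb]; omega
    positivity
  have hpu : NPC.Poly (fun x => List.replicate (prm ((b x) ^ gg) - 1) ()) :=
    UPoly.of_le (NPC.Poly.sub hpU.toPoly (NPC.Poly.const 1)) hpU fun x => Nat.sub_le _ _
  have hin : NPC.Poly (fun q : List Bool × List Tb =>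
      (((List.replicate (prm ((b q.1) ^ gg) - 1) (), wr (f q.1)), q.2) : Wn)) := by
    have e1 : NPC.Poly (fun q : List Bool × List Tb => q.1) := NPC.Poly.fst NPC.Poly.id
    have h1 := hpu.comp e1
    have h2 := hw.comp e1
    exact NPC.Poly.pair (NPC.Poly.pair h1 h2) (NPC.Poly.snd NPC.Poly.id)
  have hV : NPC.Poly (fun q : List Bool × List Tb => verif G Ks hs
      ((List.replicate (prm ((b q.1) ^ gg) - 1) (), wr (f q.1)), q.2)) := by
    have h := (verif_poly hG hKs hs_poly).comp hin
    exact h
  -- the formula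
  have hform : CPr (SigmaP (l + 1)) (fun q : List Bool × List Tb => (∀ tb ∈ q.2, Rts g tb) ∧
      verif G Ks hs ((List.replicate (prm ((b q.1) ^ gg) - 1) (), wr (f q.1)), q.2) = true) :=
    sAnd (rts_level hg) (sPoly hV)
  have hex := sTo_raw (sEx hform ((r + Polynomial.C (gg + 3)) *
    ((RT pK p0).comp (p3.comp (r + Polynomial.C (gg + 3))) + 1) + 1))
  have hiff : ∀ x : List Bool, x ∈ L ↔ ∃ tbs : List Tb, sz tbs ≤ ((r + Polynomial.C (gg + 3)) *
      ((RT pK p0).comp (p3.comp (r + Polynomial.C (gg + 3))) + 1) + 1).eval (sz x) ∧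
      ((∀ tb ∈ tbs, Rts g tb) ∧
        verif G Ks hs ((List.replicate (prm ((b x) ^ gg) - 1) (), wr (f x)), tbs) = true) := by
    intro x
    obtain ⟨hp, hpb1, hpb2⟩ := prm_spec (hb0 x)
    set p : ℕ := prm ((b x) ^ gg) with hpdef
    have hpl : (List.replicate (p - 1) ()).length + 1 = p := by
      rw [List.length_replicate]
      have := hp.pos
      omega
    have hbx := hrx x
    set n : ℕ := (f x).1.length with hn
    set C := (f x).2 with hC
    set ks : List Unit := (C.flatMap fun c => c.map fun _ => ()) ++ List.replicate 3 () with hks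
    set ops : List Op := opsQ n 0 (f x).1 with hops
    have hwr : wr (f x) = (C, ks, ops, List.replicate n 0) := rfl
    have hbe : b x = r.eval x.length + (gg + 3) := rfl
    rw [hwr, sz_pair, sz_pair, sz_pair] at hbx
    have hgb : gg + 1 ≤ b x := by omega
    have hb2 : 2 ≤ b x := by omega
    have hnb : n ≤ b x := by
      have h1 := length_lt_sz (List.replicate n (0 : ℕ))
      rw [List.length_replicate] at h1
      omega
    have hpsz : p < 2 ^ (b x * b x) := by
      have h1 : b x < 2 ^ b x := Nat.lt_two_pow_self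
      have h2 : (b x) ^ gg < (2 ^ b x) ^ gg := Nat.pow_lt_pow_left h1 (by omega)
      have h3 : 2 * (2 ^ b x) ^ gg ≤ 2 ^ (b x * b x) := by
        calc 2 * (2 ^ b x) ^ gg = 2 ^ (b x * gg + 1) := by rw [← pow_mul, pow_succ]; ring
          _ ≤ 2 ^ (b x * b x) := Nat.pow_le_pow_right (by norm_num) (by
              have h4 : b x * (gg + 1) ≤ b x * b x := Nat.mul_le_mul_left _ hgb
              have h5 : b x * (gg + 1) = b x * gg + b x := by ring
              omega)
      omega
    have hsp : ∀ y ≤ p, sz y ≤ 4 * (b x * b x) + 1 := by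
      intro y hy
      have h1 := sz_nat_le y
      have h2 : y.size ≤ b x * b x := Nat.size_le.2 (lt_of_le_of_lt hy hpsz)
      omega
    have hzb : ∀ (ops' : List Op) (a : List ℕ) (j : ℕ), ops' <:+ ops → a.length = n →
        (∀ y ∈ a, y < p) → j < n → sz (((p, C, ops', a), (j, ks)) : Ln) ≤ p3.eval (b x) := by
      intro ops' a j hs ha hap hj
      have s1 := hsp p le_rfl
      have s2 := sz_suffix hs
      have s3 := sz_le_length_mul a (4 * (b x * b x) + 1) (fun y hy => hsp y (hap y hy).le)
      rw [ha] at s3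
      have s4 : n * (4 * (b x * b x) + 1 + 1) ≤ b x * (4 * (b x * b x) + 2) :=
        Nat.mul_le_mul_right _ hnb
      have s5 : sz j ≤ 4 * b x + 1 := (sz_nat_le j).trans (by
        have := NPC.Poly.size_le_self j; omega)
      rw [sz_pair, sz_pair, sz_pair, sz_pair, sz_pair, hp3]
      simp only [Polynomial.eval_add, Polynomial.eval_mul, Polynomial.eval_C, Polynomial.eval_X,
        Polynomial.eval_pow, Polynomial.eval_ofNat]
      have h1 : 2 * b x ≤ b x * b x := Nat.mul_le_mul_right _ hb2
      have h1' : 2 * (b x * b x) ≤ b x * b x * b x := by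
        have := Nat.mul_le_mul_left (b x * b x) hb2
        omega
      have h2 : b x ^ 3 = b x * b x * b x := by ring
      have h3 : b x * (4 * (b x * b x) + 2) = 4 * (b x * b x * b x) + 2 * b x := by ring
      rw [h2]
      omega
    have hcard : ∀ (tb : Tb) (ops' : List Op) (a : List ℕ) (j : ℕ), ops' <:+ ops → a.length = n →
        (∀ y ∈ a, y < p) → j < n →
        (G (tb, ((p, C, ops', a), (j, ks)))).length ^ 2 * ks.length < p := by
      intro tb ops' a j hs ha hap hj
      have hz := hzb ops' a j hs ha hap hj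
      have h3 := length_lt_sz ks
      have h4 : (G (tb, ((p, C, ops', a), (j, ks)))).length ≤ r0.eval (p3.eval (b x)) :=
        (hr0 (tb, ((p, C, ops', a), (j, ks)))).trans (eval_mono r0 hz)
      have h5 := he1 (b x) hb2
      rw [Polynomial.eval_mul, Polynomial.eval_pow, Polynomial.eval_comp, Polynomial.eval_X] at h5
      calc (G (tb, ((p, C, ops', a), (j, ks)))).length ^ 2 * ks.length
          ≤ (r0.eval (p3.eval (b x))) ^ 2 * b x :=
            Nat.mul_le_mul (Nat.pow_le_pow_left h4 2) (by omega)
        _ ≤ (b x) ^ e1 := h5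
        _ ≤ (b x) ^ gg := Nat.pow_le_pow_right (by omega) (by omega)
        _ < p := hpb1
    have hK : max 2 (nlit C) < ks.length := by rw [hks, ks_length]; omega
    have hsm : Sm (nlit C) n ops := sm_opsQ _ _ _ _ (by omega)
    have ha0 : ∀ y ∈ List.replicate n 0, y < p := fun y hy => by
      rw [List.eq_of_mem_replicate hy]; exact hp.pos
    have hval : ∀ tbs : List Tb, (∀ tb ∈ tbs, Rts g tb) →
        verif G Ks hs ((List.replicate (p - 1) (), wr (f x)), tbs) =
        (((gstep G Ks (rt g) p C ks)^[ops.length]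
          (ops, (List.replicate n 0, ([], (tbs, true))))).2.2.2.2 &&
        decide ((((gstep G Ks (rt g) p C ks)^[ops.length]
          (ops, (List.replicate n 0, ([], (tbs, true))))).2.2.1).foldl (bstep p ks.length)
          (mvN p C ((gstep G Ks (rt g) p C ks)^[ops.length]
          (ops, (List.replicate n 0, ([], (tbs, true))))).2.1) = 1)) := by
      intro tbs htbs
      have h1 : gstepW G Ks hs ((List.replicate (p - 1) (), wr (f x)), tbs) =
          gstep G Ks hs p C ks := by
        funext s
        change gstep G Ks hs ((List.replicate (p - 1) ()).length + 1) C ks s = _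
        rw [hpl]
      unfold verif Pool.Agent.W920.LN.gfin
      rw [h1, hwr]
      simp only [ginit, hpl]
      rw [gstep_hs (g := g) p C ks ops.length (ops, (List.replicate n 0, ([], (tbs, true)))) htbs]
    have hsnd := fun tbs => run_sound (G := G) (Ks := Ks) (vd := rt g) hG2 hp C ks hK n ops
      hcard ops (List.replicate n 0) [] tbs true List.suffix_rfl hsm (List.length_replicate ..) ha0
    rw [hf' x, ← evN_iff hp, ← hC, ← hn, ← hops]
    constructor
    · intro hev
      obtain ⟨tbs, h1, h2, h3⟩ := run_completeP (G := G) (Ks := Ks) (vd := rt g) (Rts g) hp C ks n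
        ops hcard ((RT pK p0).eval (p3.eval (b x)))
        (fun ops' a j hs ha hap hj => exists_tableP hp0 hpK _ (hzb ops' a j hs ha hap hj))
        ops (List.replicate n 0) [] true List.suffix_rfl hsm (List.length_replicate ..) ha0
      refine ⟨tbs, ?_, fun tb htb => (h2 tb htb).2, ?_⟩
      · refine (sz_le_length_mul tbs _ fun tb htb => (h2 tb htb).1).trans ?_
        rw [h1]
        refine le_trans ?_ (eval_mono _ (length_lt_sz x).le)
        simp only [Polynomial.eval_add, Polynomial.eval_mul, Polynomial.eval_C,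
          Polynomial.eval_one, Polynomial.eval_comp]
        have h4 := length_lt_sz ops
        have h5 : ops.length * ((RT pK p0).eval (p3.eval (b x)) + 1) ≤
            b x * ((RT pK p0).eval (p3.eval (b x)) + 1) := Nat.mul_le_mul_right _ (by omega)
        exact Nat.add_le_add_right h5 1
      · rw [hval tbs fun tb htb => (h2 tb htb).2, h3, Bool.true_and, decide_eq_true_eq]
        rw [(hsnd tbs h3).2]
        exact hev
    · rintro ⟨tbs, -, htbs, hv⟩
      rw [hval tbs htbs, Bool.and_eq_true, decide_eq_true_eq] at hv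
      obtain ⟨hv1, hv2⟩ := hv
      rw [(hsnd tbs hv1).2] at hv2
      exact hv2
  have e : L = {x | ∃ tbs : List Tb, sz tbs ≤ ((r + Polynomial.C (gg + 3)) *
      ((RT pK p0).comp (p3.comp (r + Polynomial.C (gg + 3))) + 1) + 1).eval (sz x) ∧
      ((∀ tb ∈ tbs, Rts g tb) ∧
        verif G Ks hs ((List.replicate (prm ((b x) ^ gg) - 1) (), wr (f x)), tbs) = true)} :=
    Set.ext fun x => hiff x
  rw [e]
  exact hex

end Pool.Agent.W901.HP
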