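import Pool.Agent.W901.HP.HpB
import Pool.Agent.W901.FC.LawD

/-!
# The law of help bits for polynomial space and the levels of the polynomial hierarchy
-/

set_option autoImplicit false

namespace Pool.Agent.W901.HP

open Pool.Agent.NPC Pool.Agent.H579R2.Spt Pool.Agent.H251R5.PQ Pool.Agent.W901.AT
open Pool.Agent.W903.GP (SigmaP InPH sigma_space sigma_mono)
open Pool.Agent.W920.LS (Ln code_sp hard_of_ps)
open Pool.Agent.W21.FH (mem_allU)
open Pool.Agent.H656R2.AK (arcKayles_hard arcKayles_mem)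
open Pool.Agent.H623R2.PS (InPSPACE PSPACEHard)
open Pool.Agent.W901.FH Pool.Agent.W901.NU Pool.Agent.W901.PX

open Classical in
/-- the answers to the questions of a coded list -/
noncomputable def ansf (A : Set (List Bool)) (x : List Bool) : List (Option Bool) :=
  ((unbits (List (List Bool)) x).getD []).map fun y => some (decide (y ∈ A))

open Classical in
theorem ansf_bits (A : Set (List Bool)) (qs : List (List Bool)) :
    ansf A (bits qs) = (answers A qs).map some := by
  unfold ansf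
  rw [unbits_bits, Option.getD_some]
  unfold answers
  rw [List.map_map]
  refine List.map_congr_left fun y _ => ?_
  simp only [Function.comp]

open Classical in
theorem ansf_in {C : Set (List Bool) → Prop} (hC : Cl C) {A : Set (List Bool)} (hA : C A) :
    FnIn C (fun z => ansf A (unpair z).1) := by
  have hgC : CFn C (ansf A) := by
    unfold ansf
    refine CFn.map hC (l := fun x : List Bool => (unbits (List (List Bool)) x).getD [])
      (F := fun q : List Bool × List Bool => some (decide (q.2 ∈ A)))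
      (NPC.Poly.optGetD (g := fun _ => []) poly_unbits (NPC.Poly.const _)) ?_
    have h1 : CPr C (fun q : List Bool × List Bool => q.2 ∈ A) :=
      (CPr.of_raw hC hA).comp hC (f := fun q : List Bool × List Bool => q.2)
        (NPC.Poly.snd NPC.Poly.id)
    have h2 : CFn C (fun q : List Bool × List Bool => decide (q.2 ∈ A)) := CFn.dec hC h1
    exact (CFn.poly hC (NPC.Poly.some NPC.Poly.id)).comp hC h2
  exact FnIn.of_CFn hC (hgC.compPoly hC (NPC.Poly.fst poly_unpair))

/-- Sets in the class are predictable. -/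
theorem helpIn_of_in {C : Set (List Bool) → Prop} {A : Set (List Bool)}
    (hg : FnIn C (fun z => ansf A (unpair z).1)) (k t : ℕ) : HelpIn C Every k t A := by
  refine ⟨_, t, hg, fun qs hqs _ => ⟨List.replicate k false, List.length_replicate, ?_⟩⟩
  simp only [unpair_pairBits]
  rw [ansf_bits]
  exact adv_self hqs

theorem ph_space {L : Set (List Bool)} (h : InPH L) : InPSPACE L := by
  obtain ⟨j, hj⟩ := h
  exact inPSPACE_iff.1 (sigma_space hj)

/-- A predictor with help bits in a level of a `PSPACE`-hard set gives `PSPACE` in the level. -/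
theorem sigma_of_help (hHR : P_HR) (hSJ : P_SURJ) (hLB : P_LBP) {A : Set (List Bool)}
    (hA : PSPACEHard A) {k t : ℕ} (hLD : LinDisc ((2 ^ k : ℕ)) t) {ε : ℝ}
    (hε : 0 < ε) {j : ℕ} (hj : 1 ≤ j) (h : HelpIn (SigmaP j) (Short ε) k t A)
    {L : Set (List Bool)} (hL : InPSPACE L) : SigmaP j L := by
  obtain ⟨l, rfl⟩ : ∃ l, j = l + 1 := ⟨j - 1, by omega⟩
  obtain ⟨g, m₀, hg, hX⟩ := h
  obtain ⟨c, hc⟩ := exists_c hε
  have hg' := fToCFn hg
  obtain ⟨⟨ρ, hρ⟩, _⟩ := hg'
  have hp0 : ∀ z, (bits (g z)).length ≤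
      (ρ.comp (Polynomial.C 4 * Polynomial.X + 1)).eval z.length := fun z => by
    rw [bits_length, Polynomial.eval_comp]
    refine (hρ z).trans (eval_mono ρ ?_)
    have := sz_listBool_le z
    simp only [Polynomial.eval_add, Polynomial.eval_mul, Polynomial.eval_C, Polynomial.eval_X,
      Polynomial.eval_one]
    omega
  have hN : CHC A t c (max m₀ 1) k g := by
    intro qs hq1 hq2
    obtain ⟨u, hu, hadv⟩ := hX qs ((le_max_left _ _).trans hq1)
      (short_of hc ((le_max_right _ _).trans hq1) hq2)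
    refine ⟨u, mem_allU k u hu, hadv.1, ?_⟩
    rw [← excess_eq_cor]
    exact hadv.2
  obtain ⟨G, Ks, r0, hG, hKs, hr0, hG2⟩ := p_candsH hHR hSJ hLB (hard_of_ps hA) hLD hp0 hN
    (((0, [], [], []), (0, [])) : Ln) (0 : ℕ) code_sp
  exact sigma_of_cands (fToCFn hg) hp0 hG hKs hr0 hG2 hL

/-- **The law of help bits for polynomial space and the levels of the polynomial hierarchy.** -/
theorem help_law_sigma : ∃ C : ℕ, ∀ (k t : ℕ) (ε : ℝ),
    (0 < ε → C * 2 ^ k ≤ t ^ 2 ∨ (k + 1) * 2 ^ (k + 1) ≤ t ^ 2 →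
      (∀ j : ℕ, 1 ≤ j → List.TFAE
        [∀ L : Set (List Bool), InPSPACE L → SigmaP j L,
          ∃ A : Set (List Bool), PSPACEHard A ∧ HelpIn (SigmaP j) (Short ε) k t A,
          ∀ A : Set (List Bool), InPSPACE A → HelpIn (SigmaP j) Every k t A]) ∧
      List.TFAE
        [∀ L : Set (List Bool), InPSPACE L → InPH L,
          ∃ A : Set (List Bool), PSPACEHard A ∧ HelpIn InPH (Short ε) k t A,
          ∀ A : Set (List Bool), InPSPACE A → HelpIn InPH Every k t A]) ∧
    ((t - 1) ^ 2 < 2 ^ k → ∀ A : Set (List Bool), HelpAll k t A) := by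
  obtain ⟨C, _, hC⟩ := W935.FH.lda
  refine ⟨C, fun k t ε => ⟨fun hε hkt => ?_, fun h A => free_help h A⟩⟩
  have hLD := linDisc_of hC hkt
  have hHR : P_HR := W377.FH.hr W320.FH.bu W12.FH.wtt
  have key : ∀ (j : ℕ), 1 ≤ j → ∀ (A : Set (List Bool)), PSPACEHard A →
      HelpIn (SigmaP j) (Short ε) k t A → ∀ L : Set (List Bool), InPSPACE L → SigmaP j L :=
    fun j hj A hA h L hL => sigma_of_help hHR W12.FH.surj W762.FH.lbp hA hLD hε hj h hL
  refine ⟨fun j hj => ?_, ?_⟩
  · tfae_have 1 → 3 := fun h A hA => by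
      have h1 := ansf_in cl_ph (show InPH A from ⟨j, h A hA⟩)
      exact helpIn_of_in ⟨h1.1, h _ (ph_space h1.2)⟩ k t
    tfae_have 3 → 2 := fun h => by
      obtain ⟨g, m₀, hg, hX⟩ := h _ arcKayles_mem
      exact ⟨_, arcKayles_hard, g, m₀, hg, fun qs hqs _ => hX qs hqs trivial⟩
    tfae_have 2 → 1 := fun ⟨A, hA, h⟩ => key j hj A hA h
    tfae_finish
  · tfae_have 1 → 3 := fun h A hA => helpIn_of_in (ansf_in cl_ph (h A hA)) k t
    tfae_have 3 → 2 := fun h => by
      obtain ⟨g, m₀, hg, hX⟩ := h _ arcKayles_mem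
      exact ⟨_, arcKayles_hard, g, m₀, hg, fun qs hqs _ => hX qs hqs trivial⟩
    tfae_have 2 → 1 := by
      rintro ⟨A, hA, g, m₀, ⟨hg1, j, hg2⟩, hX⟩ L hL
      exact ⟨j + 1, key (j + 1) (by omega) A hA
        ⟨g, m₀, ⟨hg1, sigma_mono (Nat.le_succ j) hg2⟩, hX⟩ L hL⟩
    tfae_finish

end Pool.Agent.W901.HP
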